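import Mathlib

open Filter Topology

namespace Pool.Agent.Results.MP_6f16c7_an.Extension

/-- Every positive element is a (left or right) zero divisor. -/
def IsZStar (A : Type*) [NonUnitalCStarAlgebra A] [PartialOrder A] : Prop :=
  ∀ a : A, 0 ≤ a → ∃ b : A, b ≠ 0 ∧ (a * b = 0 ∨ b * a = 0)

/-- Nonzero, and the only closed two-sided ideals (closed subspaces stable under left and right
multiplication) are `0` and the whole algebra. -/
def IsSimple (A : Type*) [NonUnitalCStarAlgebra A] : Prop :=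
  Nontrivial A ∧ ∀ I : Submodule ℂ A, IsClosed (I : Set A) →
    (∀ x ∈ I, ∀ y, x * y ∈ I ∧ y * x ∈ I) → I = ⊥ ∨ I = ⊤

section
variable {B : Type*} [NonUnitalCStarAlgebra B] [PartialOrder B] [StarOrderedRing B]

lemma right_div (hB : IsZStar B) {a : B} (ha : 0 ≤ a) : ∃ b : B, b ≠ 0 ∧ a * b = 0 := by
  obtain ⟨b, hb, h | h⟩ := hB a ha
  · exact ⟨b, hb, h⟩
  · exact ⟨star b, star_ne_zero.2 hb, by
      rw [← ha.isSelfAdjoint.star_eq, ← star_mul, h, star_zero]⟩

lemma joint (h : ℕ → B) : ∃ g : B, 0 ≤ g ∧ ∀ x, g * x = 0 → ∀ n, h n * x = 0 := by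
  let c : ℕ → ℝ := fun n => (1 / 2) ^ n / (1 + ‖star (h n) * h n‖)
  have hc : ∀ n, 0 < c n := fun n => by positivity
  have hs : Summable fun n => c n • (star (h n) * h n) := by
    refine .of_norm_bounded summable_geometric_two fun n => ?_
    rw [norm_smul, Real.norm_of_nonneg (hc n).le, div_mul_eq_mul_div, div_le_iff₀ (by positivity)]
    gcongr
    linarith
  have hp : ∀ n, 0 ≤ c n • (star (h n) * h n) := fun n =>
    smul_nonneg (hc n).le (star_mul_self_nonneg _)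
  refine ⟨_, hs.hasSum.nonneg hp, fun x hx n => ?_⟩
  have h1 := star_left_conjugate_le_conjugate (le_hasSum hs.hasSum n fun j _ => hp j) x
  rw [mul_assoc _ (tsum _), hx, mul_zero, mul_smul_comm, smul_mul_assoc] at h1
  have h2 : star (h n * x) * (h n * x) ≤ 0 := by
    have := smul_le_smul_of_nonneg_left h1 (inv_pos.2 (hc n)).le
    rwa [smul_smul, inv_mul_cancel₀ (hc n).ne', one_smul, smul_zero, ← mul_assoc, mul_assoc,
      ← star_mul] at this
  exact (CStarRing.star_mul_self_eq_zero_iff _).1 (le_antisymm h2 (star_mul_self_nonneg _))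

end

theorem result {B A C : Type*} [NonUnitalCStarAlgebra B] [PartialOrder B] [StarOrderedRing B]
    [NonUnitalCStarAlgebra A] [PartialOrder A] [StarOrderedRing A]
    [NonUnitalCStarAlgebra C] [PartialOrder C] [StarOrderedRing C]
    (ι : B →⋆ₙₐ[ℂ] A) (π : A →⋆ₙₐ[ℂ] C) (hι : Function.Injective ι)
    (hπ : Function.Surjective π) (hex : ∀ a, π a = 0 ↔ a ∈ Set.range ι)
    (hB : IsZStar B) (hC : IsZStar C) (hs : IsSimple C) : IsZStar A := by
  intro a ha
  let I : Submodule ℂ A :=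
    { carrier := {d | ∃ h : B, ∀ x, h * x = 0 → d * ι x = 0}
      add_mem' := fun {d e} ⟨h, hh⟩ ⟨k, hk⟩ => by
        obtain ⟨g, -, hg⟩ := joint fun n => if n = 0 then h else k
        exact ⟨g, fun x hx => by
          rw [add_mul, hh x (by simpa using hg x hx 0), hk x (by simpa using hg x hx 1), add_zero]⟩
      zero_mem' := ⟨0, fun x _ => zero_mul _⟩
      smul_mem' := fun c d ⟨h, hh⟩ => ⟨h, fun x hx => by rw [smul_mul_assoc, hh x hx, smul_zero]⟩ }
  have hker : ∀ d, π d = 0 → d ∈ I := fun d hd => by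
    obtain ⟨h, rfl⟩ := (hex d).1 hd
    exact ⟨h, fun x hx => by rw [← map_mul, hx, map_zero]⟩
  have hcl : IsClosed (I : Set A) := isClosed_of_closure_subset fun d hd => by
    obtain ⟨u, hu, hl⟩ := mem_closure_iff_seq_limit.1 hd
    choose h hh using hu
    obtain ⟨g, -, hg⟩ := joint h
    refine ⟨g, fun x hx => tendsto_nhds_unique (hl.mul_const (ι x)) ?_⟩
    simpa only [fun n => hh n x (hg x hx n)] using tendsto_const_nhds
  have hid : ∀ d ∈ I, ∀ e, d * e ∈ I ∧ e * d ∈ I := fun d ⟨h, hh⟩ e => by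
    refine ⟨?_, h, fun x hx => by rw [mul_assoc, hh x hx, mul_zero]⟩
    obtain ⟨k, hk⟩ := (hex (ι h * e)).1 (by rw [map_mul, (hex _).2 ⟨h, rfl⟩, zero_mul])
    refine ⟨k, fun x hx => ?_⟩
    obtain ⟨y, hy⟩ := (hex (e * ι x)).1 (by rw [map_mul, (hex (ι x)).2 ⟨x, rfl⟩, mul_zero])
    rw [mul_assoc, ← hy]
    exact hh y (hι (by rw [map_mul, hy, ← mul_assoc, ← hk, ← map_mul, hx]))
  let P : A →L[ℂ] C := ⟨(π : A →ₗ[ℂ] C), map_continuous π⟩
  have hpre : ∀ d, π d ∈ I.map (π : A →ₗ[ℂ] C) → d ∈ I := fun d ⟨e, he, hed⟩ => by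
    have := I.add_mem he (hker (d - e) (by rw [map_sub, ← hed]; exact sub_self _))
    simpa using this
  have hcl' : IsClosed (I.map (π : A →ₗ[ℂ] C) : Set C) := by
    rw [← (P.isQuotientMap hπ).isClosed_preimage]
    convert hcl
    ext d
    exact ⟨hpre d, fun h => ⟨d, h, rfl⟩⟩
  rcases hs.2 _ hcl' (by
    rintro _ ⟨d, hd, rfl⟩ y
    obtain ⟨e, rfl⟩ := hπ y
    exact ⟨⟨_, (hid d hd e).1, map_mul π d e⟩, ⟨_, (hid d hd e).2, map_mul π e d⟩⟩) with h | h
  · obtain ⟨c, hc, hac⟩ := right_div hC (map_nonneg π ha)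
    obtain ⟨b, rfl⟩ := hπ c
    obtain ⟨k, hk⟩ := (hex (a * b)).1 (by rw [map_mul, hac])
    have hb : b ∉ I := fun hb => hc ((Submodule.eq_bot_iff _).1 h _ ⟨b, hb, rfl⟩)
    have : ∃ x, k * x = 0 ∧ b * ι x ≠ 0 := by
      by_contra h'
      push Not at h'
      exact hb ⟨k, h'⟩
    obtain ⟨x, hx, hbx⟩ := this
    exact ⟨_, hbx, Or.inl (by rw [← mul_assoc, ← hk, ← map_mul, hx, map_zero])⟩
  · obtain ⟨k, hk⟩ := hpre a (h ▸ Submodule.mem_top)
    obtain ⟨x, hx, hkx⟩ := right_div hB (star_mul_self_nonneg k)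
    refine ⟨ι x, fun h0 => hx (hι (h0.trans (map_zero ι).symm)), Or.inl (hk x ?_)⟩
    exact (CStarRing.star_mul_self_eq_zero_iff _).1 (by
      rw [star_mul, mul_assoc, ← mul_assoc (star k), hkx, mul_zero])

end Pool.Agent.Results.MP_6f16c7_an.Extension
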